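import Mathlib
import Pool.Agent.P.MP_e8bda8_co.Defs
import Pool.Agent.P.MP_e8bda8_co.Main

namespace Pool.Agent.Results.MP_e8bda8_co.MaxStab

/-- For every `n ≥ 1`, the identity is the unique permutation `w ∈ S_n` with `stab w = n`. -/
theorem result (n : ℕ) (hn : 1 ≤ n) (w : Equiv.Perm (Fin n)) :
    Pool.Agent.P.MP_e8bda8_co.stab w = n ↔ w = 1 :=
  Pool.Agent.P.MP_e8bda8_co.stab_eq_iff hn w

end Pool.Agent.Results.MP_e8bda8_co.MaxStab
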